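import Mathlib

/-!
Dilworth's theorem for finite subsets of a partial order (Galvin's proof).
-/

namespace Pool.Agent.H57

open Finset

variable {α : Type*} [PartialOrder α]

/-- Dilworth's theorem: if all antichains in the finite set `S` have at most `k` elements, then
`S` is a union of `k` chains. -/
theorem dilworth : ∀ (n : ℕ) (S : Finset α), S.card = n → ∀ k : ℕ,
    (∀ A : Finset α, A ⊆ S → IsAntichain (· ≤ ·) (A : Set α) → A.card ≤ k) →
    ∃ χ : α → ℕ, (∀ x ∈ S, χ x < k) ∧ ∀ x ∈ S, ∀ y ∈ S, χ x = χ y → x ≤ y ∨ y ≤ x := by
  classical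
  intro n
  induction n using Nat.strong_induction_on with
  | _ n ih =>
    intro S hSn k hk
    rcases S.eq_empty_or_nonempty with rfl | hne
    · exact ⟨fun _ => 0, by simp, by simp⟩
    obtain ⟨a, ha⟩ := S.exists_maximal hne
    have haS : a ∈ S := ha.prop
    have hmax : ∀ x ∈ S, a ≤ x → x = a := fun x hx hax => (ha.eq_of_le hx hax).symm
    set S' := S.erase a with hS'
    have hS'S : S' ⊆ S := Finset.erase_subset _ _
    have hS'c : S'.card < n := by
      rw [hS', Finset.card_erase_of_mem haS]
      have := Finset.card_pos.mpr hne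
      omega
    -- the width of `S'`
    obtain ⟨A₀, hA₀, hA₀max⟩ : ∃ A₀ ∈ S'.powerset.filter
        (fun A : Finset α => IsAntichain (· ≤ ·) (A : Set α)), ∀ A ∈ S'.powerset.filter
        (fun A : Finset α => IsAntichain (· ≤ ·) (A : Set α)), A.card ≤ A₀.card := by
      apply Finset.exists_max_image
      exact ⟨∅, by simp⟩
    rw [Finset.mem_filter, Finset.mem_powerset] at hA₀
    set k' := A₀.card with hk'
    have hwid : ∀ A : Finset α, A ⊆ S' → IsAntichain (· ≤ ·) (A : Set α) → A.card ≤ k' :=
      fun A h1 h2 => hA₀max A (by rw [Finset.mem_filter, Finset.mem_powerset]; exact ⟨h1, h2⟩)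
    have hk'k : k' ≤ k := hk A₀ (hA₀.1.trans hS'S) hA₀.2
    obtain ⟨χ', hχ1, hχ2⟩ := ih S'.card hS'c S' rfl k' hwid
    -- every `k'`-antichain meets every colour class
    have hmeet : ∀ A : Finset α, A ⊆ S' → IsAntichain (· ≤ ·) (A : Set α) → A.card = k' →
        ∀ i < k', ∃ x ∈ A, χ' x = i := by
      intro A h1 h2 h3 i hi
      have himg : A.image χ' = Finset.range k' := by
        apply Finset.eq_of_subset_of_card_le
        · intro j hj
          obtain ⟨x, hx, rfl⟩ := Finset.mem_image.mp hj
          exact Finset.mem_range.mpr (hχ1 x (h1 hx))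
        · rw [Finset.card_range, Finset.card_image_of_injOn, h3]
          intro x hx y hy hxy
          by_contra hne'
          rcases hχ2 x (h1 hx) y (h1 hy) hxy with h | h
          · exact h2 hx hy hne' h
          · exact h2 hy hx (Ne.symm hne') h
      have : i ∈ A.image χ' := by rw [himg]; exact Finset.mem_range.mpr hi
      obtain ⟨x, hx, hxi⟩ := Finset.mem_image.mp this
      exact ⟨x, hx, hxi⟩
    -- the set of elements of colour `i` that lie in some `k'`-antichain
    set T : ℕ → Finset α := fun i => S'.filter (fun x => χ' x = i ∧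
      ∃ A : Finset α, A ⊆ S' ∧ IsAntichain (· ≤ ·) (A : Set α) ∧ A.card = k' ∧ x ∈ A) with hT
    have hTne : ∀ i < k', (T i).Nonempty := by
      intro i hi
      obtain ⟨x, hx, hxi⟩ := hmeet A₀ hA₀.1 hA₀.2 rfl i hi
      exact ⟨x, by rw [hT]; exact Finset.mem_filter.mpr ⟨hA₀.1 hx, hxi, A₀, hA₀.1, hA₀.2, rfl, hx⟩⟩
    have htop : ∀ i, ∃ m, i < k' → (m ∈ T i ∧ ∀ x ∈ T i, x ≤ m) := by
      intro i
      by_cases hi : i < k'
      · obtain ⟨m, hm⟩ := (T i).exists_maximal (hTne i hi)
        refine ⟨m, fun _ => ⟨hm.prop, fun x hx => ?_⟩⟩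
        have hx' := Finset.mem_filter.mp hx
        have hm' := Finset.mem_filter.mp hm.prop
        rcases hχ2 x hx'.1 m hm'.1 (hx'.2.1.trans hm'.2.1.symm) with h | h
        · exact h
        · exact (hm.eq_of_le hx h).symm.le
      · exact ⟨a, fun h => absurd h hi⟩
    choose top htop using htop
    have htopS : ∀ i < k', top i ∈ S' := fun i hi => (Finset.mem_filter.mp (htop i hi).1).1
    have htopχ : ∀ i < k', χ' (top i) = i := fun i hi => (Finset.mem_filter.mp (htop i hi).1).2.1
    -- the `top i` are pairwise incomparable
    have hinc : ∀ i < k', ∀ j < k', i ≠ j → ¬ top j ≤ top i := by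
      intro i hi j hj hij hle
      obtain ⟨A, hA1, hA2, hA3, hA4⟩ := (Finset.mem_filter.mp (htop i hi).1).2.2
      obtain ⟨b, hb, hbj⟩ := hmeet A hA1 hA2 hA3 j hj
      have hbT : b ∈ T j := Finset.mem_filter.mpr ⟨hA1 hb, hbj, A, hA1, hA2, hA3, hb⟩
      have hbt : b ≤ top j := (htop j hj).2 b hbT
      have hne' : b ≠ top i := by
        rintro rfl
        rw [htopχ i hi] at hbj
        exact hij hbj
      exact hA2 hb hA4 hne' (hbt.trans hle)
    by_cases hcase : ∃ i < k', top i ≤ a
    · -- remove a chain
      obtain ⟨i, hi, hia⟩ := hcase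
      set K := insert a (S'.filter (fun x => χ' x = i ∧ x ≤ top i)) with hK
      have hKchain : ∀ x ∈ K, ∀ y ∈ K, x ≤ y ∨ y ≤ x := by
        intro x hx y hy
        rcases Finset.mem_insert.mp hx with h | h
        · rcases Finset.mem_insert.mp hy with h' | h'
          · rw [h, h']; exact Or.inl le_rfl
          · right
            rw [h]
            exact (Finset.mem_filter.mp h').2.2.trans hia
        · rcases Finset.mem_insert.mp hy with h' | h'
          · left
            rw [h']
            exact (Finset.mem_filter.mp h).2.2.trans hia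
          · have hx' := Finset.mem_filter.mp h
            have hy' := Finset.mem_filter.mp h'
            exact hχ2 x hx'.1 y hy'.1 (hx'.2.1.trans hy'.2.1.symm)
      have hSK : S \ K ⊆ S' := by
        intro x hx
        rw [Finset.mem_sdiff] at hx
        rw [hS', Finset.mem_erase]
        refine ⟨?_, hx.1⟩
        rintro rfl
        exact hx.2 (Finset.mem_insert_self _ _)
      have hSKc : (S \ K).card < n := lt_of_le_of_lt (Finset.card_le_card hSK) hS'c
      have hwid' : ∀ A : Finset α, A ⊆ S \ K → IsAntichain (· ≤ ·) (A : Set α) →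
          A.card ≤ k' - 1 := by
        intro A h1 h2
        have h3 := hwid A (h1.trans hSK) h2
        have h4 : A.card ≠ k' := by
          intro h4
          obtain ⟨x, hx, hxi⟩ := hmeet A (h1.trans hSK) h2 h4 i hi
          have hxT : x ∈ T i := Finset.mem_filter.mpr
            ⟨hSK (h1 hx), hxi, A, h1.trans hSK, h2, h4, hx⟩
          have hxK : x ∈ K := by
            rw [hK]
            exact Finset.mem_insert_of_mem (Finset.mem_filter.mpr
              ⟨hSK (h1 hx), hxi, (htop i hi).2 x hxT⟩)
          exact (Finset.mem_sdiff.mp (h1 hx)).2 hxK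
        omega
      obtain ⟨χ'', h1, h2⟩ := ih (S \ K).card hSKc (S \ K) rfl (k' - 1) hwid'
      refine ⟨fun x => if x ∈ K then k' - 1 else χ'' x, ?_, ?_⟩
      · intro x hx
        by_cases hxK : x ∈ K
        · simp only [hxK, if_true]
          omega
        · simp only [hxK, if_false]
          have := h1 x (Finset.mem_sdiff.mpr ⟨hx, hxK⟩)
          omega
      · intro x hx y hy hxy
        by_cases hxK : x ∈ K
        · by_cases hyK : y ∈ K
          · exact hKchain x hxK y hyK
          · simp only [hxK, hyK, if_true, if_false] at hxy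
            have := h1 y (Finset.mem_sdiff.mpr ⟨hy, hyK⟩)
            omega
        · by_cases hyK : y ∈ K
          · simp only [hxK, hyK, if_true, if_false] at hxy
            have := h1 x (Finset.mem_sdiff.mpr ⟨hx, hxK⟩)
            omega
          · simp only [hxK, hyK, if_false] at hxy
            exact h2 x (Finset.mem_sdiff.mpr ⟨hx, hxK⟩) y (Finset.mem_sdiff.mpr ⟨hy, hyK⟩) hxy
    · -- `a` together with the `top i` is an antichain
      push Not at hcase
      set A := insert a ((Finset.range k').image top) with hA
      have hinj : Set.InjOn top (Finset.range k' : Set ℕ) := by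
        intro i hi j hj hij
        simp only [Finset.coe_range, Set.mem_Iio] at hi hj
        rw [← htopχ i hi, ← htopχ j hj, hij]
      have haim : a ∉ (Finset.range k').image top := by
        intro h
        obtain ⟨i, hi, hia⟩ := Finset.mem_image.mp h
        exact hcase i (Finset.mem_range.mp hi) hia.le
      have hAc : A.card = k' + 1 := by
        rw [hA, Finset.card_insert_of_notMem haim, Finset.card_image_of_injOn hinj,
          Finset.card_range]
      have hAS : A ⊆ S := by
        intro x hx
        rcases Finset.mem_insert.mp hx with h | h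
        · rw [h]; exact haS
        · obtain ⟨i, hi, rfl⟩ := Finset.mem_image.mp h
          exact hS'S (htopS i (Finset.mem_range.mp hi))
      have hAa : IsAntichain (· ≤ ·) (A : Set α) := by
        intro x hx y hy hxy hle
        rw [Finset.mem_coe] at hx hy
        rcases Finset.mem_insert.mp hx with h | h
        · rcases Finset.mem_insert.mp hy with h' | h'
          · exact hxy (h.trans h'.symm)
          · obtain ⟨i, hi, rfl⟩ := Finset.mem_image.mp h'
            rw [h] at hle hxy
            exact hxy (hmax _ (hS'S (htopS i (Finset.mem_range.mp hi))) hle).symm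
        · obtain ⟨i, hi, rfl⟩ := Finset.mem_image.mp h
          rcases Finset.mem_insert.mp hy with h' | h'
          · rw [h'] at hle
            exact hcase i (Finset.mem_range.mp hi) hle
          · obtain ⟨j, hj, rfl⟩ := Finset.mem_image.mp h'
            have hij : j ≠ i := by
              rintro rfl
              exact hxy rfl
            exact hinc j (Finset.mem_range.mp hj) i (Finset.mem_range.mp hi) hij hle
      have hkk : k' + 1 ≤ k := hAc ▸ hk A hAS hAa
      refine ⟨fun x => if x = a then k' else χ' x, ?_, ?_⟩
      · intro x hx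
        by_cases hxa : x = a
        · simp only [hxa, if_true]
          omega
        · simp only [hxa, if_false]
          have := hχ1 x (Finset.mem_erase.mpr ⟨hxa, hx⟩)
          omega
      · intro x hx y hy hxy
        by_cases hxa : x = a
        · by_cases hya : y = a
          · left; rw [hxa, hya]
          · simp only [hxa, hya, if_true, if_false] at hxy
            have := hχ1 y (Finset.mem_erase.mpr ⟨hya, hy⟩)
            omega
        · by_cases hya : y = a
          · simp only [hxa, hya, if_true, if_false] at hxy
            have := hχ1 x (Finset.mem_erase.mpr ⟨hxa, hx⟩)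
            omega
          · simp only [hxa, hya, if_false] at hxy
            exact hχ2 x (Finset.mem_erase.mpr ⟨hxa, hx⟩) y (Finset.mem_erase.mpr ⟨hya, hy⟩) hxy

end Pool.Agent.H57
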