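import Mathlib
import Pool.Agent.H57.Dilworth

/-!
Local dimension: definitions and the upper bound by the width.
-/

namespace Pool.Agent.H57.LD

open Finset

/-- A partial linear extension of the poset `α`: a (strict) linear order `lt` on a subset
`carrier` of `α`, which extends the order of `α` on this subset. -/
structure PLE (α : Type*) [PartialOrder α] where
  /-- the ground set of the partial linear extension -/
  carrier : Set α
  /-- the strict linear order on it -/
  lt : carrier → carrier → Prop
  strictTotal : IsStrictTotalOrder carrier lt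
  extend : ∀ x y : carrier, (x : α) < (y : α) → lt x y

/-- `x` and `y` both lie in the ground set of `L`, and `x < y` in `L`. -/
def PLE.Below {α : Type*} [PartialOrder α] (L : PLE α) (x y : α) : Prop :=
  ∃ (hx : x ∈ L.carrier) (hy : y ∈ L.carrier), L.lt ⟨x, hx⟩ ⟨y, hy⟩

/-- `F` is a local realizer of the poset `α`. -/
def IsLocalRealizer {α : Type*} [PartialOrder α] (F : Set (PLE α)) : Prop :=
  (∀ x y : α, x < y → ∃ L ∈ F, L.Below x y) ∧
    ∀ x y : α, ¬ x ≤ y → ¬ y ≤ x → ∃ L ∈ F, L.Below y x

/-- The local dimension of the poset `α`: the least `t` such that some local realizer uses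
each element in at most `t` of its members. -/
noncomputable def ldim (α : Type*) [PartialOrder α] : ℕ :=
  sInf {t : ℕ | ∃ F : Set (PLE α), IsLocalRealizer F ∧
    ∀ x : α, {L ∈ F | x ∈ L.carrier}.encard ≤ t}

/-- The width of the poset `α`: the maximum size of an antichain. -/
noncomputable def width (α : Type*) [PartialOrder α] : ℕ :=
  sSup {k : ℕ | ∃ A : Finset α, IsAntichain (· ≤ ·) (A : Set α) ∧ A.card = k}

lemma PLE.Below.trans {α : Type*} [PartialOrder α] {L : PLE α} {x y z : α}
    (h1 : L.Below x y) (h2 : L.Below y z) : L.Below x z := by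
  obtain ⟨hx, hy, h⟩ := h1
  obtain ⟨_, hz, h'⟩ := h2
  have := L.strictTotal
  exact ⟨hx, hz, _root_.trans h h'⟩

lemma PLE.Below.irrefl {α : Type*} [PartialOrder α] {L : PLE α} {x : α}
    (h1 : L.Below x x) : False := by
  obtain ⟨hx, hy, h⟩ := h1
  have := L.strictTotal
  exact _root_.irrefl _ h

lemma PLE.below_of_lt {α : Type*} [PartialOrder α] {L : PLE α} {x y : α}
    (hx : x ∈ L.carrier) (hy : y ∈ L.carrier) (h : x < y) : L.Below x y :=
  ⟨hx, hy, L.extend _ _ h⟩

/-- The linear extension given by an injective strictly monotone map to a linear order. -/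
def PLE.ofKey {α β : Type*} [PartialOrder α] [LinearOrder β] (f : α → β)
    (hf : Function.Injective f) (hm : ∀ x y, x < y → f x < f y) : PLE α where
  carrier := Set.univ
  lt := fun x y => f x < f y
  strictTotal :=
    { trichotomous := by
        intro a b h1 h2
        apply Subtype.ext
        apply hf
        exact le_antisymm (not_lt.mp h2) (not_lt.mp h1)
      irrefl := fun a => lt_irrefl _
      trans := fun a b c => lt_trans }
  extend := fun x y h => hm x y h

lemma le_width {α : Type*} [PartialOrder α] [Fintype α] (A : Finset α)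
    (hA : IsAntichain (· ≤ ·) (A : Set α)) : A.card ≤ width α := by
  apply le_csSup
  · refine ⟨Fintype.card α, ?_⟩
    rintro k ⟨B, _, rfl⟩
    exact Finset.card_le_univ B
  · exact ⟨A, hA, rfl⟩

/-- There is a local realizer that uses every element at most `width α` times. -/
theorem exists_realizer (α : Type) [PartialOrder α] [Fintype α] :
    ∃ F : Set (PLE α), IsLocalRealizer F ∧
      ∀ x : α, {L ∈ F | x ∈ L.carrier}.encard ≤ (width α : ℕ) := by
  classical
  obtain ⟨χ, hχ1, hχ2⟩ := dilworth (α := α) _ Finset.univ rfl (width α)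
    (fun A _ hA => le_width A hA)
  -- key functions
  let key : ℕ → α → ℕ ×ₗ LinearExtension α := fun i x =>
    toLex ((Finset.univ.filter (fun c => χ c = i ∧ c ≤ x)).card, toLinearExtension x)
  have hmono : ∀ i x y, x ≤ y → (Finset.univ.filter (fun c => χ c = i ∧ c ≤ x)).card ≤
      (Finset.univ.filter (fun c => χ c = i ∧ c ≤ y)).card := by
    intro i x y hxy
    apply Finset.card_le_card
    intro c hc
    rw [Finset.mem_filter] at hc ⊢
    exact ⟨hc.1, hc.2.1, hc.2.2.trans hxy⟩
  have hinjL : Function.Injective (toLinearExtension : α → LinearExtension α) :=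
    fun a b h => h
  have hinj : ∀ i, Function.Injective (key i) := by
    intro i x y h
    have h' : toLinearExtension x = toLinearExtension y :=
      congrArg (fun p : ℕ ×ₗ LinearExtension α => (ofLex p).2) h
    exact hinjL h'
  have hkm : ∀ i x y, x < y → key i x < key i y := by
    intro i x y hxy
    rw [Prod.Lex.toLex_lt_toLex]
    rcases (hmono i x y hxy.le).lt_or_eq with h | h
    · exact Or.inl h
    · refine Or.inr ⟨h, ?_⟩
      have h1 : toLinearExtension x ≤ toLinearExtension y := toLinearExtension.monotone hxy.le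
      exact lt_of_le_of_ne h1 (fun h => hxy.ne (hinjL h))
  let Lx : ℕ → PLE α := fun i => PLE.ofKey (key i) (hinj i) (hkm i)
  let F : Set (PLE α) := Lx '' (Finset.range (width α) : Set ℕ)
  refine ⟨F, ⟨?_, ?_⟩, ?_⟩
  · intro x y hxy
    refine ⟨Lx (χ x), ⟨χ x, ?_, rfl⟩, ?_⟩
    · simpa using hχ1 x (Finset.mem_univ x)
    · exact ⟨Set.mem_univ _, Set.mem_univ _, hkm _ _ _ hxy⟩
  · intro x y hxy hyx
    refine ⟨Lx (χ x), ⟨χ x, ?_, rfl⟩, ?_⟩
    · simpa using hχ1 x (Finset.mem_univ x)
    · refine ⟨Set.mem_univ _, Set.mem_univ _, ?_⟩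
      change key (χ x) y < key (χ x) x
      rw [Prod.Lex.toLex_lt_toLex]
      left
      apply Finset.card_lt_card
      rw [Finset.ssubset_iff_of_subset]
      · refine ⟨x, by simp, ?_⟩
        rw [Finset.mem_filter]
        rintro ⟨_, _, h⟩
        exact hxy h
      · intro c hc
        rw [Finset.mem_filter] at hc ⊢
        refine ⟨hc.1, hc.2.1, ?_⟩
        rcases hχ2 c (Finset.mem_univ c) x (Finset.mem_univ x) hc.2.1 with h | h
        · exact h
        · exact absurd (h.trans hc.2.2) hxy
  · intro x
    calc {L ∈ F | x ∈ L.carrier}.encard ≤ F.encard := Set.encard_le_encard (fun L hL => hL.1)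
      _ ≤ ((Finset.range (width α) : Finset ℕ) : Set ℕ).encard := Set.encard_image_le _ _
      _ = width α := by rw [Set.encard_coe_eq_coe_finsetCard, Finset.card_range]

/-- The local dimension is at most the width. -/
theorem ldim_le_width (α : Type) [PartialOrder α] [Fintype α] : ldim α ≤ width α :=
  Nat.sInf_le (exists_realizer α)

end Pool.Agent.H57.LD
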