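import Mathlib

/-!
Counting lemma for the web of nodes used in the lower bound for the local dimension.
-/

namespace Pool.Agent.H57.LD

open Finset

/-- offsets: one bounded coefficient for each ordered pair of chains -/
abbrev Cf (w : ℕ) := Fin w × Fin w → Fin (w + 1)

/-- nodes of the web: a chain and an offset -/
abbrev Node (w : ℕ) := Fin w × Cf w

/-- edges of the web, `(i, j, c)` joins `(i, c)` with `(j, c + e_{ij})` -/
abbrev EdgeT (w : ℕ) :=
  {x : Fin w × Fin w × Cf w // x.1 ≠ x.2.1 ∧ ((x.2.2 (x.1, x.2.1) : ℕ)) < w}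

/-- source of an edge -/
def src {w : ℕ} (e : EdgeT w) : Node w := (e.1.1, e.1.2.2)

/-- target of an edge -/
def tgt {w : ℕ} (e : EdgeT w) : Node w :=
  (e.1.2.1, Function.update e.1.2.2 (e.1.1, e.1.2.1)
    ⟨(e.1.2.2 (e.1.1, e.1.2.1) : ℕ) + 1, by have := e.2.2; omega⟩)

/-- label of an edge -/
def lab {w : ℕ} (e : EdgeT w) : Fin w × Fin w := (e.1.1, e.1.2.1)

/-- offset vector of a node -/
def ofs {w : ℕ} (v : Node w) : Fin w × Fin w → ℚ := fun e => ((v.2 e : ℕ) : ℚ)

lemma ofs_tgt {w : ℕ} (e : EdgeT w) : ofs (tgt e) = ofs (src e) + Pi.single (lab e) 1 := by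
  funext x
  simp only [ofs, tgt, src, lab, Pi.add_apply]
  by_cases h : x = (e.1.1, e.1.2.1)
  · subst h
    simp
  · rw [Function.update_of_ne h, Pi.single_eq_of_ne h]
    simp

/-- the graph on the nodes spanned by a set of edges -/
def gr {w : ℕ} (D : Finset (EdgeT w)) : SimpleGraph (Node w) :=
  SimpleGraph.fromRel (fun v u => ∃ e ∈ D, src e = v ∧ tgt e = u)

lemma src_ne_tgt {w : ℕ} (e : EdgeT w) : src e ≠ tgt e := by
  intro h
  have := congrArg Prod.fst h
  exact e.2.1 this

lemma gr_adj {w : ℕ} {D : Finset (EdgeT w)} {e : EdgeT w} (he : e ∈ D) :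
    (gr D).Adj (src e) (tgt e) := by
  rw [gr, SimpleGraph.fromRel_adj]
  exact ⟨src_ne_tgt e, Or.inl ⟨e, he, rfl, rfl⟩⟩

/-- If all components have at most one node on each chain, then the number of edges is at most
`(w-1)/w` times the number of nodes. -/
lemma forest_count {w : ℕ} (D : Finset (EdgeT w)) (W : Finset (Node w))
    (hDW : ∀ e ∈ D, src e ∈ W ∧ tgt e ∈ W)
    (hinj : ∀ v ∈ W, ∀ u ∈ W, (gr D).Reachable v u → v.1 = u.1 → v = u) :
    w * D.card ≤ (w - 1) * W.card := by
  classical
  set comp : Node w → (gr D).ConnectedComponent := (gr D).connectedComponentMk with hcomp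
  set t : Finset (gr D).ConnectedComponent := W.image comp with ht
  have hD : D.card = ∑ κ ∈ t, (D.filter (fun e => comp (src e) = κ)).card :=
    Finset.card_eq_sum_card_fiberwise
      (fun e he => Finset.mem_coe.mpr (Finset.mem_image_of_mem comp (hDW e he).1))
  have hW : W.card = ∑ κ ∈ t, (W.filter (fun v => comp v = κ)).card :=
    Finset.card_eq_sum_card_fiberwise
      (fun v hv => Finset.mem_coe.mpr (Finset.mem_image_of_mem comp hv))
  rw [hD, hW, Finset.mul_sum, Finset.mul_sum]
  apply Finset.sum_le_sum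
  intro κ hκ
  obtain ⟨v0, hv0, hv0κ⟩ := Finset.mem_image.mp hκ
  set Wκ := W.filter (fun v => comp v = κ) with hWκ
  set Dκ := D.filter (fun e => comp (src e) = κ) with hDκ
  have hmemW : ∀ v ∈ Wκ, v ∈ W ∧ comp v = κ := fun v hv => Finset.mem_filter.mp hv
  have hchain : ∀ v ∈ Wκ, ∀ u ∈ Wκ, v.1 = u.1 → v = u := by
    intro v hv u hu hvu
    have h1 := hmemW v hv
    have h2 := hmemW u hu
    refine hinj v h1.1 u h2.1 ?_ hvu
    rw [← SimpleGraph.ConnectedComponent.eq]
    exact h1.2.trans h2.2.symm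
  have hWw : Wκ.card ≤ w := by
    calc Wκ.card ≤ (Finset.univ : Finset (Fin w)).card := by
          apply Finset.card_le_card_of_injOn (fun v => v.1) (fun _ _ => Finset.mem_coe.mpr
            (Finset.mem_univ _))
          intro v hv u hu hvu
          exact hchain v hv u hu hvu
      _ = w := by simp
  have hsrc : ∀ e ∈ Dκ, src e ∈ Wκ := by
    intro e he
    have := Finset.mem_filter.mp he
    exact Finset.mem_filter.mpr ⟨(hDW e this.1).1, this.2⟩
  have htgt : ∀ e ∈ Dκ, tgt e ∈ Wκ := by
    intro e he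
    have := Finset.mem_filter.mp he
    refine Finset.mem_filter.mpr ⟨(hDW e this.1).2, ?_⟩
    rw [← this.2, hcomp]
    exact SimpleGraph.ConnectedComponent.eq.mpr (gr_adj this.1).symm.reachable
  have hv0W : v0 ∈ Wκ := Finset.mem_filter.mpr ⟨hv0, hv0κ⟩
  have hDc : Dκ.card ≤ Wκ.card - 1 := by
    have hlabinj : Function.Injective (fun e : Dκ => lab e.1) := by
      intro e e' h
      have hl : lab e.1 = lab e'.1 := h
      have h1 : (lab e.1).1 = (lab e'.1).1 := congrArg Prod.fst hl
      have h2 : (lab e.1).2 = (lab e'.1).2 := congrArg Prod.snd hl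
      have h3 : src e.1 = src e'.1 := hchain _ (hsrc _ e.2) _ (hsrc _ e'.2) h1
      have h4 : (src e.1).2 = (src e'.1).2 := congrArg Prod.snd h3
      apply Subtype.ext
      apply Subtype.ext
      exact Prod.ext h1 (Prod.ext h2 h4)
    have hli : LinearIndependent ℚ (fun e : Dκ => (Pi.single (lab e.1) 1 :
        Fin w × Fin w → ℚ)) := by
      have := (Pi.basisFun ℚ (Fin w × Fin w)).linearIndependent.comp _ hlabinj
      convert this using 1
      funext e
      simp [Pi.basisFun_apply]
    have hspan : Set.range (fun e : Dκ => (Pi.single (lab e.1) 1 : Fin w × Fin w → ℚ)) ⊆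
        Submodule.span ℚ (((Wκ.erase v0).image (fun v => ofs v - ofs v0) :
          Finset (Fin w × Fin w → ℚ)) : Set (Fin w × Fin w → ℚ)) := by
      have hmem : ∀ v ∈ Wκ, ofs v - ofs v0 ∈
          Submodule.span ℚ (((Wκ.erase v0).image (fun v => ofs v - ofs v0) :
          Finset (Fin w × Fin w → ℚ)) : Set (Fin w × Fin w → ℚ)) := by
        intro v hv
        by_cases h : v = v0
        · rw [h, sub_self]
          exact Submodule.zero_mem _
        · apply Submodule.subset_span
          rw [Finset.mem_coe]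
          exact Finset.mem_image_of_mem _ (Finset.mem_erase.mpr ⟨h, hv⟩)
      rintro _ ⟨e, rfl⟩
      have h1 := hmem _ (htgt _ e.2)
      have h2 := hmem _ (hsrc _ e.2)
      have h3 : (Pi.single (lab e.1) 1 : Fin w × Fin w → ℚ) =
          (ofs (tgt e.1) - ofs v0) - (ofs (src e.1) - ofs v0) := by
        rw [ofs_tgt]
        abel
      simp only [SetLike.mem_coe]
      rw [h3]
      exact Submodule.sub_mem _ h1 h2
    have hle := linearIndependent_le_span' _ hli _ hspan
    rw [Cardinal.mk_fintype, Fintype.card_coe] at hle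
    simp only [Fintype.card_coe, Finset.coe_sort_coe] at hle
    have hle' : Dκ.card ≤ ((Wκ.erase v0).image (fun v => ofs v - ofs v0)).card := by
      exact_mod_cast hle
    calc Dκ.card ≤ _ := hle'
      _ ≤ (Wκ.erase v0).card := Finset.card_image_le
      _ = Wκ.card - 1 := Finset.card_erase_of_mem hv0W
  have hWpos : 0 < Wκ.card := Finset.card_pos.mpr ⟨v0, hv0W⟩
  obtain ⟨x, hx⟩ : ∃ x, Wκ.card = x + 1 := ⟨Wκ.card - 1, by omega⟩
  obtain ⟨y, rfl⟩ : ∃ y, w = y + 1 := ⟨w - 1, by omega⟩
  rw [hx] at hDc hWw ⊢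
  simp only [Nat.add_sub_cancel] at hDc ⊢
  calc (y + 1) * Dκ.card ≤ (y + 1) * x := Nat.mul_le_mul_left _ hDc
    _ ≤ y * (x + 1) := by nlinarith

/-- the number of nodes -/
lemma card_node (w : ℕ) : Fintype.card (Node w) = w * (w + 1) ^ (w * w) := by
  simp [Fintype.card_pi]

/-- the number of edges -/
lemma card_edge (w : ℕ) (hw : 1 ≤ w) :
    Fintype.card (EdgeT w) = w * (w - 1) * (w * (w + 1) ^ (w * w - 1)) := by
  classical
  rw [Fintype.card_subtype]
  have h1 : (univ.filter (fun x : Fin w × Fin w × Cf w =>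
      x.1 ≠ x.2.1 ∧ ((x.2.2 (x.1, x.2.1) : ℕ)) < w)).card =
      ∑ p ∈ (univ : Finset (Fin w × Fin w)).filter (fun p => p.1 ≠ p.2),
        (univ.filter (fun x : Fin w × Fin w × Cf w =>
          (x.1 ≠ x.2.1 ∧ ((x.2.2 (x.1, x.2.1) : ℕ)) < w) ∧ (x.1, x.2.1) = p)).card := by
    rw [Finset.card_eq_sum_card_fiberwise (f := fun x => (x.1, x.2.1))
      (t := (univ : Finset (Fin w × Fin w)).filter (fun p => p.1 ≠ p.2))]
    · simp only [Finset.filter_filter]
    · intro x hx
      simp only [Finset.coe_filter, Finset.mem_univ, true_and, Set.mem_ofPred_eq] at hx ⊢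
      exact hx.1
  rw [h1]
  have h2 : ∀ p ∈ (univ : Finset (Fin w × Fin w)).filter (fun p => p.1 ≠ p.2),
      (univ.filter (fun x : Fin w × Fin w × Cf w =>
          (x.1 ≠ x.2.1 ∧ ((x.2.2 (x.1, x.2.1) : ℕ)) < w) ∧ (x.1, x.2.1) = p)).card =
        w * (w + 1) ^ (w * w - 1) := by
    intro p hp
    have hp' := (Finset.mem_filter.mp hp).2
    have h3 : (univ.filter (fun x : Fin w × Fin w × Cf w =>
          (x.1 ≠ x.2.1 ∧ ((x.2.2 (x.1, x.2.1) : ℕ)) < w) ∧ (x.1, x.2.1) = p)).card =
        (Fintype.piFinset (fun q : Fin w × Fin w => if q = p then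
          (univ : Finset (Fin (w + 1))).filter (fun a : Fin (w + 1) => (a : ℕ) < w) else univ)).card := by
      symm
      apply Finset.card_bij (fun c _ => (p.1, p.2, c))
      · intro c hc
        rw [Fintype.mem_piFinset] at hc
        have := hc p
        simp only [if_true, Finset.mem_filter, Finset.mem_univ, true_and] at this
        simp only [Finset.mem_filter, Finset.mem_univ, true_and, and_true]
        exact ⟨hp', this⟩
      · intro c _ c' _ h
        simpa using h
      · intro x hx
        simp only [Finset.mem_filter, Finset.mem_univ, true_and] at hx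
        obtain ⟨⟨_, hx2⟩, rfl⟩ := hx
        refine ⟨x.2.2, ?_, rfl⟩
        rw [Fintype.mem_piFinset]
        intro q
        by_cases hq : q = (x.1, x.2.1)
        · subst hq
          simp only [if_true, Finset.mem_filter, Finset.mem_univ, true_and]
          exact hx2
        · simp [hq]
    rw [h3, Fintype.card_piFinset]
    have h4 : ((univ : Finset (Fin (w + 1))).filter (fun a : Fin (w + 1) => (a : ℕ) < w)).card = w := by
      rw [Fin.card_filter_val_lt]
      simp
    rw [← Finset.mul_prod_erase univ _ (Finset.mem_univ p)]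
    simp only [if_true, h4]
    congr 1
    rw [Finset.prod_congr rfl (g := fun _ => w + 1)]
    · rw [Finset.prod_const, Finset.card_erase_of_mem (Finset.mem_univ p)]
      simp
    · intro q hq
      rw [if_neg (Finset.ne_of_mem_erase hq)]
      simp
  rw [Finset.sum_congr rfl h2, Finset.sum_const, smul_eq_mul]
  congr 1
  have h5 : ((univ : Finset (Fin w × Fin w)).filter (fun p => p.1 ≠ p.2)) =
      (univ : Finset (Fin w)).offDiag := by
    ext p
    simp
  rw [h5, Finset.offDiag_card]
  simp only [Finset.card_univ, Fintype.card_fin]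
  obtain ⟨y, rfl⟩ : ∃ y, w = y + 1 := ⟨w - 1, by omega⟩
  simp only [Nat.add_sub_cancel]
  have : (y + 1) * (y + 1) = (y + 1) * y + (y + 1) := by ring
  omega

end Pool.Agent.H57.LD
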