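import Mathlib

/-!
Finite Ramsey theorem for pairs and finitely many colours.
-/

namespace Pool.Agent.H57

open Finset

/-- Multicolour Ramsey theorem for pairs. -/
theorem ramsey_aux {K : Type*} [Fintype K] [Nonempty K] :
    ∀ (n : ℕ) (r : K → ℕ), ∑ κ, r κ = n →
      ∃ N : ℕ, ∀ (col : ℕ → ℕ → K) (S : Finset ℕ), N ≤ S.card →
        ∃ κ, ∃ H ⊆ S, H.card = r κ ∧ ∀ a ∈ H, ∀ b ∈ H, a < b → col a b = κ := by
  classical
  intro n
  induction n with
  | zero =>
    intro r hr
    refine ⟨0, fun col S _ => ?_⟩
    have κ : K := Classical.arbitrary K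
    have h0 : r κ = 0 := by
      have := Finset.single_le_sum (f := r) (fun i _ => Nat.zero_le _) (Finset.mem_univ κ)
      omega
    exact ⟨κ, ∅, Finset.empty_subset _, by simp [h0], by simp⟩
  | succ n ih =>
    intro r hr
    by_cases hz : ∃ κ, r κ = 0
    · obtain ⟨κ, hκ⟩ := hz
      exact ⟨0, fun col S _ => ⟨κ, ∅, Finset.empty_subset _, by simp [hκ], by simp⟩⟩
    push Not at hz
    have hsub : ∀ κ : K, ∑ κ', (Function.update r κ (r κ - 1)) κ' = n := by
      intro κ
      have h1 : ∑ κ', (Function.update r κ (r κ - 1)) κ' + 1 = ∑ κ', r κ' := by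
        rw [Finset.sum_update_of_mem (Finset.mem_univ κ),
          ← Finset.add_sum_erase Finset.univ r (Finset.mem_univ κ)]
        have := hz κ
        rw [Finset.sdiff_singleton_eq_erase]
        omega
      omega
    choose N hN using fun κ => ih (Function.update r κ (r κ - 1)) (hsub κ)
    refine ⟨1 + ∑ κ, N κ, fun col S hS => ?_⟩
    have hne : S.Nonempty := by
      rw [← Finset.card_pos]
      omega
    set x := S.min' hne with hx
    have hxS : x ∈ S := Finset.min'_mem _ _
    have hcard : ∑ κ, N κ ≤ (S.erase x).card := by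
      rw [Finset.card_erase_of_mem hxS]
      omega
    -- pigeonhole
    have hfib : (S.erase x).card = ∑ κ, ((S.erase x).filter (fun y => col x y = κ)).card :=
      Finset.card_eq_sum_card_fiberwise (fun _ _ => Finset.mem_univ _)
    obtain ⟨κ, hκ⟩ : ∃ κ, N κ ≤ ((S.erase x).filter (fun y => col x y = κ)).card := by
      by_contra hcon
      push Not at hcon
      have : ∑ κ, ((S.erase x).filter (fun y => col x y = κ)).card < ∑ κ, N κ :=
        Finset.sum_lt_sum_of_nonempty Finset.univ_nonempty (fun κ _ => hcon κ)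
      omega
    obtain ⟨κ', H, hHS, hHc, hHm⟩ := hN κ col _ hκ
    have hHS' : H ⊆ S := fun y hy => Finset.mem_of_mem_erase (Finset.mem_filter.mp (hHS hy)).1
    by_cases hkk : κ' = κ
    · subst hkk
      rw [Function.update_self] at hHc
      have hxH : x ∉ H := fun h => by
        have := (Finset.mem_filter.mp (hHS h)).1
        exact (Finset.notMem_erase x S) this
      refine ⟨κ', insert x H, ?_, ?_, ?_⟩
      · intro y hy
        rcases Finset.mem_insert.mp hy with h | h
        · rw [h]; exact hxS
        · exact hHS' h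
      · rw [Finset.card_insert_of_notMem hxH, hHc]
        have := hz κ'
        omega
      · intro a ha b hb hab
        rcases Finset.mem_insert.mp ha with h | h
        · rcases Finset.mem_insert.mp hb with h' | h'
          · omega
          · rw [h]
            exact (Finset.mem_filter.mp (hHS h')).2
        · rcases Finset.mem_insert.mp hb with h' | h'
          · exfalso
            have : x ≤ a := Finset.min'_le _ _ (hHS' h)
            omega
          · exact hHm a h b h' hab
    · rw [Function.update_of_ne hkk] at hHc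
      exact ⟨κ', H, hHS', hHc, hHm⟩

/-- Ramsey theorem for pairs, with an increasing enumeration of the homogeneous set. -/
theorem ramsey (K : Type*) [Fintype K] [Nonempty K] (r : ℕ) :
    ∃ N : ℕ, ∀ col : ℕ → ℕ → K, ∃ (g : Fin r → ℕ) (κ : K), StrictMono g ∧ (∀ p, g p < N) ∧
      ∀ p q : Fin r, p < q → col (g p) (g q) = κ := by
  obtain ⟨N, hN⟩ := ramsey_aux (K := K) _ (fun _ => r) rfl
  refine ⟨N, fun col => ?_⟩
  obtain ⟨κ, H, hHS, hHc, hHm⟩ := hN col (Finset.range N) (by simp)
  refine ⟨H.orderEmbOfFin hHc, κ, (H.orderEmbOfFin hHc).strictMono, ?_, ?_⟩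
  · intro p
    exact Finset.mem_range.mp (hHS (Finset.orderEmbOfFin_mem H hHc p))
  · intro p q hpq
    exact hHm _ (Finset.orderEmbOfFin_mem H hHc p) _ (Finset.orderEmbOfFin_mem H hHc q)
      ((H.orderEmbOfFin hHc).strictMono hpq)

end Pool.Agent.H57
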