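import Mathlib
import Pool.Agent.H57.Ramsey
import Pool.Agent.H57.LDDefs
import Pool.Agent.H57.LDForest

/-!
The lower bound: a poset of width `w` and local dimension at least `w`.
-/

namespace Pool.Agent.H57.LD

open Finset

/-- Shift parameters for posets on `w` chains. -/
structure Par (w : ℕ) where
  /-- the shift from chain `i` to chain `j` -/
  k : Fin w → Fin w → ℕ
  pos : ∀ i j, 0 < k i j
  tri : ∀ i j l, k i l ≤ k i j + k j l

/-- Points of the chain poset: chain `i`, position `a`. -/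
structure Pt {w : ℕ} (Q : Par w) (M : ℕ) where
  /-- the chain -/
  i : Fin w
  /-- the position -/
  a : Fin M

namespace Pt

variable {w : ℕ} {Q : Par w} {M : ℕ}

noncomputable instance : Fintype (Pt Q M) :=
  Fintype.ofEquiv (Fin w × Fin M)
    ⟨fun x => ⟨x.1, x.2⟩, fun p => (p.i, p.a), fun _ => rfl, fun _ => rfl⟩

theorem ext' {p q : Pt Q M} (h1 : p.i = q.i) (h2 : (p.a : ℕ) = q.a) : p = q := by
  obtain ⟨i, a⟩ := p
  obtain ⟨j, b⟩ := q
  simp only at h1 h2
  subst h1
  have : a = b := Fin.ext h2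
  subst this
  rfl

instance : PartialOrder (Pt Q M) where
  le p q := (p.i = q.i ∧ (p.a : ℕ) ≤ q.a) ∨ (p.i ≠ q.i ∧ (p.a : ℕ) + Q.k p.i q.i ≤ q.a)
  le_refl p := Or.inl ⟨rfl, le_rfl⟩
  le_trans p q s h1 h2 := by
    rcases h1 with ⟨h1, h1'⟩ | ⟨h1, h1'⟩
    · rcases h2 with ⟨h2, h2'⟩ | ⟨h2, h2'⟩
      · exact Or.inl ⟨h1.trans h2, h1'.trans h2'⟩
      · refine Or.inr ⟨by rw [h1]; exact h2, ?_⟩
        rw [h1]
        omega
    · rcases h2 with ⟨h2, h2'⟩ | ⟨h2, h2'⟩
      · refine Or.inr ⟨by rw [← h2]; exact h1, ?_⟩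
        rw [← h2]
        omega
      · by_cases h : p.i = s.i
        · exact Or.inl ⟨h, by omega⟩
        · have := Q.tri p.i q.i s.i
          exact Or.inr ⟨h, by omega⟩
  le_antisymm p q h1 h2 := by
    rcases h1 with ⟨h1, h1'⟩ | ⟨h1, h1'⟩
    · rcases h2 with ⟨h2, h2'⟩ | ⟨h2, h2'⟩
      · exact ext' h1 (le_antisymm h1' h2')
      · exact absurd h1.symm h2
    · rcases h2 with ⟨h2, h2'⟩ | ⟨h2, h2'⟩
      · exact absurd h2.symm h1
      · have := Q.pos p.i q.i
        omega

theorem le_def (p q : Pt Q M) : p ≤ q ↔ (p.i = q.i ∧ (p.a : ℕ) ≤ q.a) ∨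
    (p.i ≠ q.i ∧ (p.a : ℕ) + Q.k p.i q.i ≤ q.a) := Iff.rfl

/-- the width of the chain poset is `w` -/
theorem width_eq (hM : 0 < M) : width (Pt Q M) = w := by
  classical
  apply le_antisymm
  · apply csSup_le
    · exact ⟨0, ∅, by simp, rfl⟩
    · rintro k ⟨A, hA, rfl⟩
      calc A.card ≤ (Finset.univ : Finset (Fin w)).card := by
            apply Finset.card_le_card_of_injOn (fun p => p.i) (fun _ _ => Finset.mem_coe.mpr
              (Finset.mem_univ _))
            intro p hp q hq hpq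
            by_contra hne
            have hpq' : p.i = q.i := hpq
            rcases le_total (p.a : ℕ) q.a with h | h
            · exact hA hp hq hne (Or.inl ⟨hpq', h⟩)
            · exact hA hq hp (Ne.symm hne) (Or.inl ⟨hpq'.symm, h⟩)
        _ = w := by simp
  · have h := le_width ((Finset.univ : Finset (Fin w)).image
      (fun i => (⟨i, ⟨0, hM⟩⟩ : Pt Q M))) ?_
    · rw [Finset.card_image_of_injective] at h
      · simpa using h
      · intro i j hij
        exact congrArg Pt.i hij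
    · intro p hp q hq hne hle
      rw [Finset.mem_coe, Finset.mem_image] at hp hq
      obtain ⟨i, _, rfl⟩ := hp
      obtain ⟨j, _, rfl⟩ := hq
      rw [le_def] at hle
      rcases hle with ⟨h, _⟩ | ⟨_, h⟩
      · simp only at h
        subst h
        exact hne rfl
      · simp only at h
        have := Q.pos i j
        omega

end Pt

/-- weights -/
def wt (w : ℕ) (e : Fin w × Fin w) : ℕ :=
  (w + 1) ^ (w * w) + (w + 1) ^ (finProdFinEquiv e : ℕ)

/-- the value of an offset -/
def av {w : ℕ} (c : Cf w) : ℕ := ∑ e, (c e : ℕ) * wt w e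

lemma av_injective {w : ℕ} : Function.Injective (av (w := w)) := by
  intro c c' h
  have key : ∀ c : Cf w, av c % (w + 1) ^ (w * w) =
      (finFunctionFinEquiv (fun i : Fin (w * w) => c (finProdFinEquiv.symm i)) :
        Fin ((w + 1) ^ (w * w))) := by
    intro c
    have h1 : av c = (w + 1) ^ (w * w) * (∑ e, (c e : ℕ)) +
        (finFunctionFinEquiv (fun i : Fin (w * w) => c (finProdFinEquiv.symm i)) :
        Fin ((w + 1) ^ (w * w))) := by
      rw [finFunctionFinEquiv_apply]
      unfold av wt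
      rw [Finset.mul_sum]
      rw [← Equiv.sum_comp (finProdFinEquiv (m := w) (n := w)) (fun i =>
        ((c (finProdFinEquiv.symm i) : ℕ)) * (w + 1) ^ (i : ℕ))]
      rw [← Finset.sum_add_distrib]
      apply Finset.sum_congr rfl
      intro e _
      simp only [Equiv.symm_apply_apply]
      ring
    rw [h1, Nat.mul_add_mod]
    exact Nat.mod_eq_of_lt (Fin.is_lt _)
  have h2 := key c
  rw [h, key c'] at h2
  have h3 := finFunctionFinEquiv.injective (Fin.ext h2)
  funext e
  have h4 := congrFun h3 (finProdFinEquiv e)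
  simpa using h4.symm

lemma av_tgt {w : ℕ} (e : EdgeT w) : av (tgt e).2 = av (src e).2 + wt w (lab e) := by
  unfold av
  rw [← Finset.add_sum_erase _ _ (Finset.mem_univ (lab e)),
    ← Finset.add_sum_erase Finset.univ (fun x => ((src e).2 x : ℕ) * wt w x)
      (Finset.mem_univ (lab e))]
  have h1 : ((tgt e).2 (lab e) : ℕ) = (src e).2 (lab e) + 1 := by
    simp [tgt, src, lab]
  have h2 : ∑ x ∈ univ.erase (lab e), ((tgt e).2 x : ℕ) * wt w x =
      ∑ x ∈ univ.erase (lab e), ((src e).2 x : ℕ) * wt w x := by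
    apply Finset.sum_congr rfl
    intro x hx
    have hne := Finset.ne_of_mem_erase hx
    have : (tgt e).2 x = (src e).2 x := by
      simp only [tgt, src]
      exact Function.update_of_ne hne _ _
    rw [this]
  rw [h1, h2]
  ring

lemma av_le {w : ℕ} (c : Cf w) : av c ≤ ∑ e, w * wt w e := by
  unfold av
  apply Finset.sum_le_sum
  intro e _
  exact Nat.mul_le_mul_right _ (by have := (c e).is_lt; omega)

/-- the parameters of the poset -/
def par (w N : ℕ) : Par w where
  k i j := (N + 1) * wt w (i, j)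
  pos i j := by
    unfold wt
    positivity
  tri i j l := by
    rw [← Nat.mul_add]
    apply Nat.mul_le_mul_left
    unfold wt
    have h1 : (w + 1) ^ (finProdFinEquiv (i, l) : ℕ) ≤ (w + 1) ^ (w * w) :=
      Nat.pow_le_pow_right (by omega) (Fin.is_lt _).le
    omega

/-- the number of positions -/
def size (w N : ℕ) : ℕ := (N + 1) * (∑ e, w * wt w e) + (N + 1)

/-- the element with index `n` at the node `v` -/
def el {w N : ℕ} (v : Node w) (n : ℕ) : Pt (par w N) (size w N) :=
  ⟨v.1, ⟨((N + 1) * av v.2 + n) % size w N, Nat.mod_lt _ (by unfold size; omega)⟩⟩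

lemma el_val {w N : ℕ} (v : Node w) {n : ℕ} (hn : n < N + 1) :
    ((el v n : Pt (par w N) (size w N)).a : ℕ) = (N + 1) * av v.2 + n := by
  unfold el
  simp only
  apply Nat.mod_eq_of_lt
  unfold size
  have := Nat.mul_le_mul_left (N + 1) (av_le v.2)
  omega

lemma el_lt_same {w N : ℕ} {v u : Node w} (hvu : v.1 = u.1) (h : av v.2 < av u.2) {m n : ℕ}
    (hm : m < N + 1) (hn : n < N + 1) :
    (el v m : Pt (par w N) (size w N)) < el u n := by
  have h1 : (N + 1) * av v.2 + (N + 1) ≤ (N + 1) * av u.2 := by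
    have := Nat.mul_le_mul_left (N + 1) (Nat.succ_le_of_lt h)
    rw [Nat.succ_eq_add_one, Nat.mul_add] at this
    omega
  rw [lt_iff_le_not_ge, Pt.le_def, Pt.le_def, el_val v hm, el_val u hn]
  constructor
  · exact Or.inl ⟨hvu, by omega⟩
  · rintro (⟨_, h'⟩ | ⟨h', _⟩)
    · omega
    · exact h' hvu.symm

lemma el_edge_le {w N : ℕ} (e : EdgeT w) {m n : ℕ} (hm : m < N + 1) (hn : n < N + 1) :
    ((el (src e) m : Pt (par w N) (size w N)) ≤ el (tgt e) n) ↔ m ≤ n := by
  have hne : (src e).1 ≠ (tgt e).1 := e.2.1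
  have hk : (par w N).k (src e).1 (tgt e).1 = (N + 1) * wt w (lab e) := rfl
  rw [Pt.le_def, el_val _ hm, el_val _ hn, av_tgt]
  change ((src e).1 = (tgt e).1 ∧ _) ∨ ((src e).1 ≠ (tgt e).1 ∧
    (N + 1) * av (src e).2 + m + (par w N).k (src e).1 (tgt e).1 ≤ _) ↔ _
  rw [hk, Nat.mul_add]
  constructor
  · rintro (⟨h, _⟩ | ⟨_, h⟩)
    · exact absurd h hne
    · omega
  · intro h
    exact Or.inr ⟨hne, by omega⟩

lemma el_edge_not_ge {w N : ℕ} (e : EdgeT w) {m n : ℕ} (hm : m < N + 1) (hn : n < N + 1) :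
    ¬ ((el (tgt e) m : Pt (par w N) (size w N)) ≤ el (src e) n) := by
  have hne : (tgt e).1 ≠ (src e).1 := fun h => e.2.1 h.symm
  rw [Pt.le_def, el_val _ hm, el_val _ hn, av_tgt]
  rintro (⟨h, _⟩ | ⟨_, h⟩)
  · exact absurd h hne
  · have h1 : N + 1 ≤ (N + 1) * wt w (lab e) := by
      apply Nat.le_mul_of_pos_right
      unfold wt
      positivity
    rw [Nat.mul_add] at h
    omega

end Pool.Agent.H57.LD
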