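import Mathlib
import Pool.Agent.H57.LDLower

/-!
The main argument: no local realizer of the poset uses every element at most `w - 1` times.
-/

namespace Pool.Agent.H57.LD

open Finset

lemma gr_adj_iff {w : ℕ} {D : Finset (EdgeT w)} {a b : Node w} (h : (gr D).Adj a b) :
    ∃ e ∈ D, (src e = a ∧ tgt e = b) ∨ (src e = b ∧ tgt e = a) := by
  rw [gr, SimpleGraph.fromRel_adj] at h
  obtain ⟨_, ⟨e, he, h1⟩ | ⟨e, he, h1⟩⟩ := h
  · exact ⟨e, he, Or.inl h1⟩
  · exact ⟨e, he, Or.inr h1⟩

/-- an injection of the members of a small set to `Fin t` -/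
lemma exists_slot {β : Type*} (S : Set β) (t : ℕ) (ht : 0 < t) (hS : S.encard ≤ (t : ℕ)) :
    ∃ f : β → Fin t, Set.InjOn f S := by
  classical
  have hfin : S.Finite := Set.finite_of_encard_le_coe hS
  have hc : hfin.toFinset.card ≤ t := by
    rw [hfin.encard_eq_coe_toFinset_card] at hS
    exact_mod_cast hS
  have : Nonempty (hfin.toFinset ↪ Fin t) := by
    apply Function.Embedding.nonempty_of_card_le
    simpa using hc
  obtain ⟨φ⟩ := this
  refine ⟨fun x => if h : x ∈ hfin.toFinset then φ ⟨x, h⟩ else ⟨0, ht⟩, ?_⟩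
  intro x hx y hy hxy
  have hx' : x ∈ hfin.toFinset := hfin.mem_toFinset.mpr hx
  have hy' : y ∈ hfin.toFinset := hfin.mem_toFinset.mpr hy
  simp only [hx', hy', dif_pos] at hxy
  have := φ.injective hxy
  exact congrArg Subtype.val this

theorem main_lower (w : ℕ) (hw : 2 ≤ w) :
    ∃ N : ℕ, ∀ F : Set (PLE (Pt (par w N) (size w N))), IsLocalRealizer F →
      (∀ x, {L ∈ F | x ∈ L.carrier}.encard ≤ ((w - 1 : ℕ) : ℕ∞)) → False := by
  classical
  set r := Fintype.card (Node w) + 3 with hr
  have : Nonempty (Fin (w - 1)) := ⟨⟨0, by omega⟩⟩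
  obtain ⟨N, hN⟩ := ramsey (EdgeT w → Fin (w - 1) × Fin (w - 1)) r
  refine ⟨N, ?_⟩
  intro F hF hcount
  -- slots
  choose f hf using fun x : Pt (par w N) (size w N) =>
    exists_slot {L ∈ F | x ∈ L.carrier} (w - 1) (by omega) (hcount x)
  -- the chosen partial linear extensions
  have hex : ∀ (e : EdgeT w) (m n : ℕ), ∃ L : PLE (Pt (par w N) (size w N)),
      m < n → n < N + 1 → L ∈ F ∧ L.Below (el (tgt e) m) (el (src e) n) := by
    intro e m n
    by_cases h : m < n ∧ n < N + 1
    · have h1 : ¬ ((el (src e) n : Pt (par w N) (size w N)) ≤ el (tgt e) m) := by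
        rw [el_edge_le e h.2 (by omega)]
        omega
      obtain ⟨L, hL, hL'⟩ := hF.2 _ _ h1 (el_edge_not_ge e (by omega) h.2)
      exact ⟨L, fun _ _ => ⟨hL, hL'⟩⟩
    · have hne : Nonempty (PLE (Pt (par w N) (size w N))) := by
        have e0 : EdgeT w := e
        by_contra hcon
        have h1 : ¬ ((el (src e) 1 : Pt (par w N) (size w N)) ≤ el (tgt e) 0) → False := by
          intro h1
          by_cases hN1 : 1 < N + 1
          · obtain ⟨L, _, _⟩ := hF.2 _ _ h1 (el_edge_not_ge e (by omega) hN1)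
            exact hcon ⟨L⟩
          · obtain ⟨L, _, _⟩ := hF.1 (el (src e) 0) (el (tgt e) 0) (by
              rw [lt_iff_le_not_ge]
              exact ⟨(el_edge_le e (by omega) (by omega)).mpr le_rfl,
                el_edge_not_ge e (by omega) (by omega)⟩)
            exact hcon ⟨L⟩
        obtain ⟨L, _, _⟩ := hF.1 (el (src e) 0) (el (tgt e) 0) (by
          rw [lt_iff_le_not_ge]
          exact ⟨(el_edge_le e (by omega) (by omega)).mpr le_rfl,
            el_edge_not_ge e (by omega) (by omega)⟩)
        exact hcon ⟨L⟩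
      exact ⟨Classical.choice hne, fun h1 h2 => absurd ⟨h1, h2⟩ h⟩
  choose Lf hLf using hex
  obtain ⟨g', κ, hg'mono, hg'N, hg'col⟩ := hN (fun m n e =>
    (f (el (src e) n) (Lf e m n), f (el (tgt e) m) (Lf e m n)))
  -- convert the index set to natural numbers
  have hr3 : 3 ≤ r := by omega
  set g : ℕ → ℕ := fun p => if h : p < r then g' ⟨p, h⟩ else 0 with hg
  have hgval : ∀ p (h : p < r), g p = g' ⟨p, h⟩ := fun p h => by rw [hg]; simp [h]
  have hgmono : ∀ p q, p < q → q < r → g p < g q := by
    intro p q hpq hq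
    rw [hgval p (by omega), hgval q hq]
    exact hg'mono hpq
  have hgN : ∀ p, p < r → g p < N + 1 := by
    intro p hp
    rw [hgval p hp]
    have := hg'N ⟨p, hp⟩
    omega
  have hcol : ∀ (e : EdgeT w) (p q : ℕ), p < q → q < r →
      f (el (src e) (g q)) (Lf e (g p) (g q)) = (κ e).1 ∧
      f (el (tgt e) (g p)) (Lf e (g p) (g q)) = (κ e).2 := by
    intro e p q hpq hq
    have h1 := congrFun (hg'col ⟨p, by omega⟩ ⟨q, hq⟩ hpq) e
    rw [← hgval p (by omega), ← hgval q hq] at h1
    rw [← h1]
    exact ⟨rfl, rfl⟩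
  have hL : ∀ (e : EdgeT w) (p q : ℕ), p < q → q < r → Lf e (g p) (g q) ∈ F ∧
      (Lf e (g p) (g q)).Below (el (tgt e) (g p)) (el (src e) (g q)) := by
    intro e p q hpq hq
    exact hLf e (g p) (g q) (hgmono p q hpq hq) (hgN q hq)
  have hL1 : ∀ (e : EdgeT w) (p q q' : ℕ), p < q → q < r → p < q' → q' < r →
      Lf e (g p) (g q) = Lf e (g p) (g q') := by
    intro e p q q' hpq hq hpq' hq'
    apply hf (el (tgt e) (g p))
    · exact ⟨(hL e p q hpq hq).1, (hL e p q hpq hq).2.1⟩
    · exact ⟨(hL e p q' hpq' hq').1, (hL e p q' hpq' hq').2.1⟩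
    · rw [(hcol e p q hpq hq).2, (hcol e p q' hpq' hq').2]
  have hL2 : ∀ (e : EdgeT w) (p p' q : ℕ), p < q → p' < q → q < r →
      Lf e (g p) (g q) = Lf e (g p') (g q) := by
    intro e p p' q hpq hpq' hq
    apply hf (el (src e) (g q))
    · obtain ⟨h1, _, h2, _⟩ := hL e p q hpq hq
      exact ⟨h1, h2⟩
    · obtain ⟨h1, _, h2, _⟩ := hL e p' q hpq' hq
      exact ⟨h1, h2⟩
    · rw [(hcol e p q hpq hq).1, (hcol e p' q hpq' hq).1]
  set Me : EdgeT w → PLE (Pt (par w N) (size w N)) := fun e => Lf e (g 0) (g (r - 1)) with hMe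
  have hMeq : ∀ (e : EdgeT w) (p q : ℕ), p < q → q < r → Lf e (g p) (g q) = Me e := by
    intro e p q hpq hq
    rw [hL1 e p q (r - 1) hpq hq (by omega) (by omega), hMe,
      hL2 e p 0 (r - 1) (by omega) (by omega) (by omega)]
  have hMF : ∀ e, Me e ∈ F := fun e => (hL e 0 (r - 1) (by omega) (by omega)).1
  have tight : ∀ (e : EdgeT w) (p q : ℕ), p < q → q < r →
      (Me e).Below (el (tgt e) (g p)) (el (src e) (g q)) := by
    intro e p q hpq hq
    rw [← hMeq e p q hpq hq]
    exact (hL e p q hpq hq).2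
  -- one step
  have hstep : ∀ (L : PLE (Pt (par w N) (size w N))) (a b : Node w),
      (gr (univ.filter (fun e => Me e = L))).Adj a b → ∀ p, 1 ≤ p → p + 2 < r →
      L.Below (el a (g p)) (el b (g (p + 1))) := by
    intro L a b hab p hp1 hp2
    obtain ⟨e, he, h⟩ := gr_adj_iff hab
    rw [Finset.mem_filter] at he
    obtain ⟨_, rfl⟩ := he
    rcases h with ⟨rfl, rfl⟩ | ⟨rfl, rfl⟩
    · obtain ⟨_, h1, _⟩ := tight e 0 p (by omega) (by omega)
      obtain ⟨h2, _, _⟩ := tight e (p + 1) (r - 1) (by omega) (by omega)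
      apply PLE.below_of_lt h1 h2
      rw [lt_iff_le_not_ge]
      exact ⟨(el_edge_le e (hgN p (by omega)) (hgN (p + 1) (by omega))).mpr
        (hgmono p (p + 1) (by omega) (by omega)).le,
        el_edge_not_ge e (hgN (p + 1) (by omega)) (hgN p (by omega))⟩
    · exact tight e p (p + 1) (by omega) (by omega)
  have hwalk : ∀ (L : PLE (Pt (par w N) (size w N))) (a b : Node w)
      (W : (gr (univ.filter (fun e => Me e = L))).Walk a b) (p : ℕ), 1 ≤ p →
      p + W.length + 1 < r → W.length = 0 ∨ L.Below (el a (g p)) (el b (g (p + W.length))) := by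
    intro L a b W
    induction W with
    | nil => intro p _ _; left; rfl
    | cons h W ih =>
      intro p hp1 hp2
      right
      rw [SimpleGraph.Walk.length_cons] at hp2 ⊢
      have h1 := hstep L _ _ h p hp1 (by omega)
      rcases ih (p + 1) (by omega) (by omega) with h2 | h2
      · have h3 := SimpleGraph.Walk.eq_of_length_eq_zero h2
        rw [h2]
        rw [h3] at h1
        exact h1
      · have h3 : p + (W.length + 1) = p + 1 + W.length := by omega
        rw [h3]
        exact h1.trans h2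
  -- the nodes of `L`
  set WL : PLE (Pt (par w N) (size w N)) → Finset (Node w) := fun L =>
    univ.filter (fun v => (el v (g 1) : Pt (par w N) (size w N)) ∈ L.carrier) with hWL
  have hcnt : ∀ L : PLE (Pt (par w N) (size w N)),
      w * (univ.filter (fun e => Me e = L)).card ≤ (w - 1) * (WL L).card := by
    intro L
    apply forest_count
    · intro e he
      rw [Finset.mem_filter] at he
      obtain ⟨_, rfl⟩ := he
      constructor
      · obtain ⟨_, h1, _⟩ := tight e 0 1 (by omega) (by omega)
        exact Finset.mem_filter.mpr ⟨Finset.mem_univ _, h1⟩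
      · obtain ⟨h1, _, _⟩ := tight e 1 2 (by omega) (by omega)
        exact Finset.mem_filter.mpr ⟨Finset.mem_univ _, h1⟩
    · -- it suffices to treat the case of increasing values
      have key : ∀ v u : Node w, (gr (univ.filter (fun e => Me e = L))).Reachable u v →
          v.1 = u.1 → ¬ av v.2 < av u.2 := by
        intro v u huv hvu hlt
        obtain ⟨W, hW⟩ := huv.exists_isPath
        have hlen := hW.length_lt
        rcases hwalk L u v W 1 le_rfl (by omega) with h | h
        · have := SimpleGraph.Walk.eq_of_length_eq_zero h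
          subst this
          exact lt_irrefl _ hlt
        · have h2 := el_lt_same (N := N) hvu hlt (hgN (1 + W.length) (by omega))
            (hgN 1 (by omega))
          obtain ⟨ha, hb, hc⟩ := h
          have h3 := PLE.below_of_lt hb ha h2
          exact (h3.trans ⟨ha, hb, hc⟩).irrefl
      intro v _ u _ hreach hvu
      have h1 := key v u hreach.symm hvu
      have h2 := key u v hreach hvu.symm
      have h3 : av v.2 = av u.2 := by omega
      exact Prod.ext hvu (av_injective h3)
  -- double counting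
  set MM := (univ : Finset (EdgeT w)).image Me with hMM
  have hsumD : Fintype.card (EdgeT w) =
      ∑ L ∈ MM, (univ.filter (fun e => Me e = L)).card := by
    rw [← Finset.card_univ]
    exact Finset.card_eq_sum_card_fiberwise
      (fun e _ => Finset.mem_coe.mpr (Finset.mem_image_of_mem _ (Finset.mem_univ e)))
  have hsumW : ∑ L ∈ MM, (WL L).card ≤ (w - 1) * Fintype.card (Node w) := by
    have h1 : ∑ L ∈ MM, (WL L).card = ∑ v : Node w,
        (MM.filter (fun L => (el v (g 1) : Pt (par w N) (size w N)) ∈ L.carrier)).card := by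
      rw [hWL]
      simp only [Finset.card_filter]
      exact Finset.sum_comm
    rw [h1]
    calc ∑ v : Node w,
        (MM.filter (fun L => (el v (g 1) : Pt (par w N) (size w N)) ∈ L.carrier)).card
        ≤ ∑ _v : Node w, (w - 1) := by
          apply Finset.sum_le_sum
          intro v _
          have h2 : ((MM.filter (fun L => (el v (g 1) : Pt (par w N) (size w N)) ∈ L.carrier) :
              Finset (PLE (Pt (par w N) (size w N)))) : Set (PLE (Pt (par w N) (size w N)))).encard
              ≤ ((w - 1 : ℕ) : ℕ∞) := by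
            refine le_trans (Set.encard_le_encard ?_) (hcount (el v (g 1)))
            intro L hL
            rw [Finset.mem_coe, Finset.mem_filter] at hL
            obtain ⟨h3, h4⟩ := hL
            obtain ⟨e, _, rfl⟩ := Finset.mem_image.mp h3
            exact ⟨hMF e, h4⟩
          rw [Set.encard_coe_eq_coe_finsetCard] at h2
          exact_mod_cast h2
      _ = (w - 1) * Fintype.card (Node w) := by
          rw [Finset.sum_const, Finset.card_univ, smul_eq_mul, mul_comm]
  have hfinal : w * Fintype.card (EdgeT w) ≤ (w - 1) * ((w - 1) * Fintype.card (Node w)) := by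
    calc w * Fintype.card (EdgeT w)
        = ∑ L ∈ MM, w * (univ.filter (fun e => Me e = L)).card := by
          rw [hsumD, Finset.mul_sum]
      _ ≤ ∑ L ∈ MM, (w - 1) * (WL L).card := Finset.sum_le_sum (fun L _ => hcnt L)
      _ = (w - 1) * ∑ L ∈ MM, (WL L).card := by rw [Finset.mul_sum]
      _ ≤ _ := Nat.mul_le_mul_left _ hsumW
  rw [card_node, card_edge w (by omega)] at hfinal
  obtain ⟨y, rfl⟩ : ∃ y, w = y + 1 := ⟨w - 1, by omega⟩
  have hy : 1 ≤ y := by omega
  have hd : (y + 1) * (y + 1) = ((y + 1) * (y + 1) - 1) + 1 := by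
    have : 1 ≤ (y + 1) * (y + 1) := Nat.one_le_iff_ne_zero.mpr (by positivity)
    omega
  set d := (y + 1) * (y + 1) - 1 with hd'
  rw [hd, pow_succ] at hfinal
  simp only [Nat.add_sub_cancel] at hfinal
  have hP : 0 < (y + 1 + 1) ^ d := by positivity
  have h1 : (y + 1) * (y + 1) * ((y * (y + 1)) * (y + 1 + 1) ^ d) ≤
      y * (y + 2) * ((y * (y + 1)) * (y + 1 + 1) ^ d) := by
    calc (y + 1) * (y + 1) * ((y * (y + 1)) * (y + 1 + 1) ^ d)
        = (y + 1) * ((y + 1) * y * ((y + 1) * (y + 1 + 1) ^ d)) := by ring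
      _ ≤ y * (y * ((y + 1) * ((y + 1 + 1) ^ d * (y + 1 + 1)))) := hfinal
      _ = y * (y + 2) * ((y * (y + 1)) * (y + 1 + 1) ^ d) := by ring
  have hpos : 0 < (y * (y + 1)) * (y + 1 + 1) ^ d := by positivity
  have h2 := Nat.le_of_mul_le_mul_right h1 hpos
  nlinarith

end Pool.Agent.H57.LD
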